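import Pool.Agent.H321R3.VP.Main

/-! An unconditional lower bound for the variance of primes in short intervals, for all interval
lengths up to `X ^ (1/3)`. -/

open MeasureTheory

namespace Pool.Agent.Results.MP_2a816b_nt.VarianceLower

/-- The weighted number of prime powers in the interval of length `H` centred at `x`. -/
noncomputable def psi (x H : ℝ) : ℝ :=
  ∑ᶠ n ∈ {n : ℕ | 1 ≤ n ∧ x - H / 2 ≤ n ∧ (n : ℝ) ≤ x + H / 2}, ArithmeticFunction.vonMangoldt n

theorem result : ∀ ε : ℝ, 0 < ε → ∃ X₀ : ℝ, ∀ X H : ℝ, X₀ ≤ X → 1 ≤ H → H ≤ X ^ (1 / 3 : ℝ) →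
    H * (1 / 2 * Real.log X - 3 / 2 * Real.log H - ε * Real.log X) ≤
      (1 / X) * ∫ x in (1 : ℝ)..X, |psi x H - H| ^ 2 := by
  intro ε hε
  obtain ⟨X₀, h1, h⟩ := H321VP.var_lower (min ε 1) (lt_min hε one_pos) (min_le_right _ _)
  refine ⟨X₀, fun X H hX hH hHX => ?_⟩
  have hX1 : 1 ≤ X := h1.trans hX
  have hX0 : 0 < X := by linarith
  have hlog : 0 ≤ Real.log X := Real.log_nonneg hX1
  have h2 := h X H hX hH hHX
  have h3 : ∫ x in (1 : ℝ)..X, |psi x H - H| ^ 2 = ∫ x in (1 : ℝ)..X, (H321VP.psi x H - H) ^ 2 := by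
    refine intervalIntegral.integral_congr fun x _ => ?_
    simp only [sq_abs]
    rfl
  have h6 : 1 / X * ∫ x in (1 : ℝ)..X, (H321VP.psi x H - H) ^ 2 =
      (∫ x in (1 : ℝ)..X, (H321VP.psi x H - H) ^ 2) / X := by ring
  rw [h3, h6, le_div_iff₀ hX0]
  refine le_trans ?_ h2
  have h4 : min ε 1 * Real.log X ≤ ε * Real.log X :=
    mul_le_mul_of_nonneg_right (min_le_left _ _) hlog
  have h5 : H * X * (1 / 2 * Real.log X - 3 / 2 * Real.log H - ε * Real.log X) ≤
      H * X * (1 / 2 * Real.log X - 3 / 2 * Real.log H - min ε 1 * Real.log X) := by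
    apply mul_le_mul_of_nonneg_left _ (by positivity)
    linarith
  linarith

end Pool.Agent.Results.MP_2a816b_nt.VarianceLower
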